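import Pool.Agent.Helper84.MT.Canf
import Pool.Agent.Helper56.MT.M1

/-! K-LABELS, part 1: canonical forms and maximal informations for a CLASS of labels which contains the trivial label
and is closed under joins. Main instance: `LC.kz B`, the labels whose leak at `B` is EXACTLY zero. -/

namespace Pool.Agent.Helper40.EL

open Finset Filter Topology Pool.Agent.Helper69.RK Pool.Agent.Helper31.EC

noncomputable section

/-- a class of labels which contains the trivial label and is closed under joins -/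
structure LC (S : Sp) where
  P : ∀ k, FLab (S.F k) → Prop
  triv : ∀ k, P k (FLab.triv (S.F k))
  join : ∀ k (l l' : FLab (S.F k)), P k l → P k l' → P k (l.join l')

namespace LC

variable {S : Sp}

/-- a label belongs to the class eventually -/
def ev (C : LC S) (l : Lab S) : Prop := ∀ᶠ k in UF, C.P k (l k)

/-- all labels -/
def all (S : Sp) : LC S := ⟨fun _ _ => True, fun _ => trivial, fun _ _ _ _ _ => trivial⟩

/-- EXACT K-labels: the leak at `B` is zero -/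
def kz (B : Part S) : LC S where
  P := fun k l => l.leak (B k) = 0
  triv := fun _ => FLab.triv_leak _
  join := fun k l l' h h' => by
    have h1 := l.join_leak l' (B k)
    rw [h, h', add_zero] at h1
    exact le_antisymm h1 (FLab.leak_nonneg _ _)

/-- intersections -/
def inf (C C' : LC S) : LC S where
  P := fun k l => C.P k l ∧ C'.P k l
  triv := fun k => ⟨C.triv k, C'.triv k⟩
  join := fun k l l' h h' => ⟨C.join k l l' h.1 h'.1, C'.join k l l' h.2 h'.2⟩

theorem ev_triv (C : LC S) : C.ev (fun k => FLab.triv (S.F k)) := Eventually.of_forall C.triv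

theorem ev.join {C : LC S} {l l' : Lab S} (h : C.ev l) (h' : C.ev l') : C.ev (l.join l') := by
  filter_upwards [h, h'] with k a b using C.join k _ _ a b

/-- an exact K-label is a Markov label at `B` -/
theorem kz_nul {B : Part S} {l : Lab S} (h : (kz B).ev l) : Nul S (fun k => (l k).leak (B k)) := by
  refine (Nul_zero S).of_le (Eventually.of_forall fun k => (l k).leak_nonneg _) ?_
  filter_upwards [h] with k hk using hk.le

/-- coarser conditions give fewer exact K-labels -/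
theorem kz_mono {B B' : Part S} (hB : ∀ᶠ k in UF, B k ≤ B' k) {l : Lab S} (h : (kz B).ev l) : (kz B').ev l := by
  filter_upwards [hB, h] with k a b
  exact le_antisymm ((FLab.leak_anti _ a).trans_eq b) (FLab.leak_nonneg _ _)

end LC

namespace Lab

variable {S : Sp} {ι : Type}

/-- maximal Markov labels of a family inside a class -/
def IsMaxK (C : LC S) (l : Lab S) (A : ι → Part S) : Prop :=
  l.DMf A ∧ C.ev l ∧ ∀ l' : Lab S, l'.DMf A → C.ev l' → l'.info ≤ l.info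

/-- MAXIMAL labels of a class exist -/
theorem exists_maxK [Countable ι] (C : LC S) (A : ι → Part S) {i₀ : ι} (hA : (A i₀).Bd) :
    ∃ l : Lab S, IsMaxK C l A := by
  classical
  set I0 : Set ℝ := {x | ∃ l : Lab S, l.DMf A ∧ C.ev l ∧ x = l.info} with hI0
  have hbd : BddAbove I0 := by
    refine ⟨ul (fun k => H (A i₀ k) / (S.F k).n), ?_⟩
    rintro x ⟨l, hl, _, rfl⟩
    exact hl.info_le hA
  have hne : I0.Nonempty := ⟨_, _, DMf_triv A, C.ev_triv, rfl⟩
  have h1 : ∀ j : ℕ, ∃ l : Lab S, l.DMf A ∧ C.ev l ∧ sSup I0 - 1 / ((j : ℝ) + 1) < l.info := by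
    intro j
    have h2 : sSup I0 - 1 / ((j : ℝ) + 1) < sSup I0 := by
      have : (0 : ℝ) < 1 / ((j : ℝ) + 1) := by positivity
      linarith
    obtain ⟨x, ⟨l, hl, hC, rfl⟩, hx⟩ := exists_lt_of_lt_csSup hne h2
    exact ⟨l, hl, hC, hx⟩
  choose l hl hC hi using h1
  obtain ⟨c, hc⟩ := exists_injective_nat ι
  have hfin : ∀ j : ℕ, {i : ι | c i ≤ j}.Finite := by
    intro j
    apply Set.Finite.of_finite_image (f := c) _ hc.injOn
    apply (Set.finite_Iic j).subset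
    rintro x ⟨i, hi, rfl⟩
    exact hi
  have hG : ∀ j : ℕ, ∀ᶠ k in UF, (∀ i ∈ {i : ι | c i ≤ j}, (l j k).leak (A i k) / (S.F k).n ≤ 1 / ((j : ℝ) + 1)) ∧
      C.P k (l j k) ∧ sSup I0 - 1 / ((j : ℝ) + 1) ≤ (l j k).info / (S.F k).n := by
    intro j
    have h5 : (0 : ℝ) < 1 / ((j : ℝ) + 1) := by positivity
    apply Filter.Eventually.and
    · rw [Filter.eventually_all_finite (hfin j)]
      intro i _
      filter_upwards [(hl j i).eventually (gt_mem_nhds h5)] with k hk using hk.le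
    · filter_upwards [hC j, eventually_gt_of_lt_ul ((hl j).ub hA) (hi j)] with k a b using ⟨a, b.le⟩
  obtain ⟨y, j, hj, hy, hG'⟩ := dia' (X := fun k => FLab (S.F k)) l (fun j k x =>
      (∀ i ∈ {i : ι | c i ≤ j}, x.leak (A i k) / (S.F k).n ≤ 1 / ((j : ℝ) + 1)) ∧ C.P k x ∧
      sSup I0 - 1 / ((j : ℝ) + 1) ≤ x.info / (S.F k).n) hG
  have h0 : Tendsto (fun k => 1 / ((j k : ℝ) + 1)) UF (𝓝 0) := tendsto_one_div_add_atTop_nhds_zero_nat.comp hj
  have hDM : Lab.DMf y A := by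
    intro i
    refine tendsto_of_tendsto_of_tendsto_of_le_of_le' tendsto_const_nhds h0 ?_ ?_
    · exact Eventually.of_forall fun k => div_nonneg ((y k).leak_nonneg _) (S.F k).pos.le
    · filter_upwards [hG', hj.eventually (eventually_ge_atTop (c i))] with k hk h5 using hk.1 i h5
  have hCy : C.ev y := by filter_upwards [hG'] with k hk using hk.2.1
  have hv : sSup I0 ≤ Lab.info y := by
    have h4 : Tendsto (fun k => sSup I0 - 1 / ((j k : ℝ) + 1)) UF (𝓝 (sSup I0)) := by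
      have := h0.const_sub (sSup I0)
      rwa [sub_zero] at this
    exact le_of_tendsto_of_tendsto h4 (ul_tendsto (hDM.ub hA)) (by filter_upwards [hG'] with k hk using hk.2.2)
  exact ⟨y, hDM, hCy, fun l' hl' hC' => (le_csSup hbd ⟨l', hl', hC', rfl⟩).trans hv⟩

/-- UNIVERSALITY of a maximal label of a class -/
theorem IsMaxK.univ {C : LC S} {l l' : Lab S} {A : ι → Part S} (h : IsMaxK C l A) (h' : l'.DMf A) (hC : C.ev l')
    {i : ι} (hA : (A i).Bd) :
    Nul S (fun k => I (((l k).am (l' k)).p2.map (l' k).v) (((l k).am (l' k)).p1.map (l k).p.top)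
      (((l k).am (l' k)).p1.map (l k).v)) :=
  univ_of_info (h.2.2 _ (h.1.join h') (h.2.1.join hC)) ((h.1.join h').ub hA) (h.1.ub hA)

end Lab

end

end Pool.Agent.Helper40.EL

namespace Pool.Agent.Helper89.LX

open Finset Filter Topology Matrix Pool.Agent.Helper69.RK Pool.Agent.Helper31.EC Pool.Agent.Helper40.EL
open Pool.Agent.Helper95.LF (PdM)

noncomputable section

variable {ι : Type} [Fintype ι] [DecidableEq ι] {S : Sp} (Φ : Gau S ι) {κ : Type}

/-- the near lemma with the only comparison it needs -/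
theorem Gau.near_sum {A : κ → Part S} {x : ∀ k, FD (S.F k) ι} (hx : Φ.Adf A x)
    (hs : ul (fun k => (sumFD (Φ.cp k) (x k)).sc / (S.F k).n) ≤ ul (fun k => (x k).sc / (S.F k).n))
    (e : ℝ) (he : 0 < e) :
    Tendsto (fun k => (x k).l.T.pb (fun ω => ¬ ∀ y, qf ((x k).g' ω) y ≤ 2 ^ (e * (S.F k).n) * qf ((x k).g ω) y))
      UF (𝓝 0) := by
  classical
  set z : ∀ k, FD (S.F k) ι := fun k => sumFD (Φ.cp k) (x k) with hz
  have hzA : Φ.Adf A z := Φ.sum_Adf hx
  have h1 : ul (fun k => (z k).sc / (S.F k).n) ≤ ul (fun k => (x k).sc / (S.F k).n) := hs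
  have t1 := ul_tendsto (Φ.sc_UBf hzA)
  have t2 := ul_tendsto (Φ.sc_UBf hx)
  set Ev : ∀ k, (x k).l.T.Ω → Prop := fun k ω =>
    (¬ ∀ y, qf ((x k).g' ω) y ≤ 2 ^ (e * (S.F k).n) * qf ((x k).g ω) y) ∧
      Cpd (Φ.cp k) ((x k).g ω + (x k).g' ω) with hEv
  have hd : ∀ᶠ k in UF, e * (x k).l.T.pb (Ev k) ≤ (z k).sc / (S.F k).n - (x k).sc / (S.F k).n := by
    filter_upwards [hx 1 one_pos] with k hk
    have hn := (S.F k).pos
    rw [← sub_div, le_div_iff₀ hn]
    unfold FD.sc FSp.pb mass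
    show e * (∑ ω, res (x k).l.T.μ (Ev k) ω) * (S.F k).n ≤
      (∑ ω : (x k).l.T.Ω, (x k).l.T.μ ω * Real.logb 2 ((z k).g ω).det) -
      ∑ ω, (x k).l.T.μ ω * Real.logb 2 ((x k).g ω).det
    rw [← Finset.sum_sub_distrib, mul_comm e, mul_assoc, Finset.sum_mul]
    apply Finset.sum_le_sum
    intro ω _
    by_cases h0 : (x k).l.T.μ ω = 0
    · rw [h0, zero_mul, zero_mul, sub_zero]
      unfold res
      split_ifs
      · rw [h0, zero_mul]
      · rw [zero_mul]
    · obtain ⟨c1, c2⟩ := hk.2.1 ω h0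
      have hμ : 0 ≤ (x k).l.T.μ ω := (x k).l.T.nn ω
      have hz1 : (z k).g ω = if Cpd (Φ.cp k) ((x k).g ω + (x k).g' ω) then (x k).g ω + (x k).g' ω
        else (x k).g ω := rfl
      have hdet : 0 < ((x k).g ω).det := zero_lt_one.trans_le c1.one_le
      rw [← mul_sub]
      by_cases hN : Ev k ω
      · rw [res_pos _ _ _ hN, hz1, if_pos hN.2]
        apply mul_le_mul_of_nonneg_left _ hμ
        obtain ⟨y, hy⟩ := not_forall.mp hN.1
        push Not at hy
        have hy0 : y ≠ 0 := by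
          intro h
          subst h
          unfold qf at hy
          simp at hy
        have h2 := det_gain' c1.pdM c2.psd (2 ^ (e * (S.F k).n)) y hy0 hy.le
        have h3 : (2 : ℝ) ^ (e * (S.F k).n) * ((x k).g ω).det ≤ ((x k).g ω + (x k).g' ω).det := by
          refine le_trans ?_ h2
          apply mul_le_mul_of_nonneg_right _ hdet.le
          linarith
        have h4 := Real.logb_le_logb_of_le (b := 2) (by norm_num) (by positivity) h3
        rw [Real.logb_mul (by positivity) hdet.ne', Real.logb_rpow (by norm_num) (by norm_num)] at h4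
        linarith
      · rw [res_neg _ _ _ hN, zero_mul]
        apply mul_nonneg hμ
        rw [hz1]
        split_ifs with h3
        · have h2 := det_gain_zero c1.pdM c2.psd
          have h4 := Real.logb_le_logb_of_le (b := 2) (by norm_num) hdet h2
          linarith
        · linarith
  have hlim : Tendsto (fun k => (z k).sc / (S.F k).n - (x k).sc / (S.F k).n) UF
      (𝓝 (ul (fun k => (z k).sc / (S.F k).n) - ul (fun k => (x k).sc / (S.F k).n))) := t1.sub t2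
  have hle : ul (fun k => (z k).sc / (S.F k).n) - ul (fun k => (x k).sc / (S.F k).n) ≤ 0 := by linarith
  have hge : 0 ≤ ul (fun k => (z k).sc / (S.F k).n) - ul (fun k => (x k).sc / (S.F k).n) := by
    apply ge_of_tendsto hlim
    filter_upwards [hd] with k hk
    exact (mul_nonneg he.le ((x k).l.T.pb_nonneg _)).trans hk
  have heq : ul (fun k => (z k).sc / (S.F k).n) - ul (fun k => (x k).sc / (S.F k).n) = 0 := le_antisymm hle hge
  rw [heq] at hlim
  have hN : Tendsto (fun k => (x k).l.T.pb (Ev k)) UF (𝓝 0) := by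
    have h5 := hlim.const_mul e⁻¹
    rw [mul_zero] at h5
    refine tendsto_of_tendsto_of_tendsto_of_le_of_le' tendsto_const_nhds h5
      (Eventually.of_forall fun k => (x k).l.T.pb_nonneg _) ?_
    filter_upwards [hd] with k hk
    rw [← div_eq_inv_mul, le_div_iff₀ he, mul_comm]
    exact hk
  have hsum := hN.add (Φ.sum_typf hx)
  rw [add_zero] at hsum
  refine tendsto_of_tendsto_of_tendsto_of_le_of_le tendsto_const_nhds hsum
    (fun k => (x k).l.T.pb_nonneg _) (fun k => ?_)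
  refine le_trans (FSp.pb_mono _ (E' := fun ω => Ev k ω ∨ ¬ Cpd (Φ.cp k) ((x k).g ω + (x k).g' ω)) ?_)
    (pb_or _ _ _)
  intro ω _ h2
  by_cases h3 : Cpd (Φ.cp k) ((x k).g ω + (x k).g' ω)
  · exact Or.inl ⟨h2, h3⟩
  · exact Or.inr h3


variable (C : LC S)

/-- admissible sequences of a class -/
def Gau.AdfK (A : κ → Part S) (x : ∀ k, FD (S.F k) ι) : Prop := Φ.Adf A x ∧ C.ev (fun k => (x k).l)

/-- diagonal in a class -/
theorem Gau.diagfK (A : κ → Part S) (x : ℕ → ∀ k, FD (S.F k) ι) (P : ℕ → ∀ k, FD (S.F k) ι → Prop)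
    (hx : ∀ j : ℕ, ∀ᶠ k in UF, Φ.Admf A (1 / ((j : ℝ) + 1)) k (x j k) ∧ C.P k (x j k).l ∧ P j k (x j k)) :
    ∃ (y : ∀ k, FD (S.F k) ι) (J : ℕ → ℕ), Tendsto J UF atTop ∧ Φ.AdfK C A y ∧ ∀ᶠ k in UF, P (J k) k (y k) := by
  obtain ⟨y, J, hJ, hy, hP⟩ := Φ.diagf A x (fun j k z => C.P k z.l ∧ P j k z) (by
    intro j
    filter_upwards [hx j] with k hk using hk)
  exact ⟨y, J, hJ, ⟨hy, by filter_upwards [hP] with k hk using hk.1⟩, by filter_upwards [hP] with k hk using hk.2⟩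

theorem Gau.triv_AdfK (A : κ → Part S) : Φ.AdfK C A (fun k => trivFD (S.F k)) := ⟨Φ.triv_Adf A, C.ev_triv⟩

/-- optimal sequences of a class -/
def Gau.OptfK (A : κ → Part S) (x : ∀ k, FD (S.F k) ι) : Prop :=
  Φ.AdfK C A x ∧ ∀ y, Φ.AdfK C A y → ul (fun k => (y k).sc / (S.F k).n) ≤ ul (fun k => (x k).sc / (S.F k).n)

/-- optimal forms of a class exist -/
theorem Gau.exists_optfK (A : κ → Part S) : ∃ x : ∀ k, FD (S.F k) ι, Φ.OptfK C A x := by
  set V : Set ℝ := {r | ∃ x : ∀ k, FD (S.F k) ι, Φ.AdfK C A x ∧ r = ul (fun k => (x k).sc / (S.F k).n)} with hV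
  have hVb : BddAbove V := by
    refine ⟨Fintype.card ι * (Φ.C + 1), ?_⟩
    rintro r ⟨x, hx, rfl⟩
    apply ul_le_const (Φ.sc_UBf hx.1)
    filter_upwards [hx.1 1 one_pos] with k hk using (Φ.sc_boundsf hk).2
  have hVn : V.Nonempty := ⟨_, _, Φ.triv_AdfK C A, rfl⟩
  have h1 : ∀ j : ℕ, ∃ x : ∀ k, FD (S.F k) ι, Φ.AdfK C A x ∧
      sSup V - 1 / ((j : ℝ) + 1) < ul (fun k => (x k).sc / (S.F k).n) := by
    intro j
    have h2 : sSup V - 1 / ((j : ℝ) + 1) < sSup V := by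
      have : (0 : ℝ) < 1 / ((j : ℝ) + 1) := by positivity
      linarith
    obtain ⟨r, ⟨x, hx, rfl⟩, hr⟩ := exists_lt_of_lt_csSup hVn h2
    exact ⟨x, hx, hr⟩
  choose x hx hx' using h1
  obtain ⟨y, J, hJ, hy, hP⟩ := Φ.diagfK C A x (fun j k z => sSup V - 1 / ((j : ℝ) + 1) ≤ z.sc / (S.F k).n) (by
    intro j
    filter_upwards [(hx j).1 _ (by positivity : (0 : ℝ) < 1 / ((j : ℝ) + 1)), (hx j).2,
      eventually_gt_of_lt_ul (Φ.sc_UBf (hx j).1) (hx' j)] with k a b c using ⟨a, b, c.le⟩)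
  refine ⟨y, hy, fun z hz => ?_⟩
  have h2 : ul (fun k => (z k).sc / (S.F k).n) ≤ sSup V := le_csSup hVb ⟨z, hz, rfl⟩
  refine h2.trans ?_
  have h0 : Tendsto (fun k => 1 / ((J k : ℝ) + 1)) UF (𝓝 0) :=
    tendsto_one_div_add_atTop_nhds_zero_nat.comp hJ
  have h3 : Tendsto (fun k => sSup V - 1 / ((J k : ℝ) + 1)) UF (𝓝 (sSup V)) := by
    have := h0.const_sub (sSup V)
    rwa [sub_zero] at this
  exact le_of_tendsto_of_tendsto h3 (ul_tendsto (Φ.sc_UBf hy.1)) hP

/-- an optimal form of a class dominates every bounding form of its label -/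
theorem Gau.opt_nearfK {A : κ → Part S} {x : ∀ k, FD (S.F k) ι} (hx : Φ.AdfK C A x)
    (hopt : ∀ y, Φ.AdfK C A y → ul (fun k => (y k).sc / (S.F k).n) ≤ ul (fun k => (x k).sc / (S.F k).n))
    (e : ℝ) (he : 0 < e) :
    Tendsto (fun k => (x k).l.T.pb (fun ω => ¬ ∀ y, qf ((x k).g' ω) y ≤ 2 ^ (e * (S.F k).n) * qf ((x k).g ω) y))
      UF (𝓝 0) := Φ.near_sum hx.1 (hopt _ ⟨Φ.sum_Adf hx.1, hx.2⟩) e he

/-- the approximate version: `x₀` is an optimal sequence of the class -/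
theorem Gau.approxfK {A : κ → Part S} {x₀ : ∀ k, FD (S.F k) ι} (h₀ : Φ.OptfK C A x₀) (e : ℝ) (he : 0 < e) :
    ∃ η : ℝ, 0 < η ∧ ∀ x : ∀ k, FD (S.F k) ι,
      (∀ᶠ k in UF, Φ.Admf A η k (x k) ∧ C.P k (x k).l ∧
        ul (fun k => (x₀ k).sc / (S.F k).n) - η ≤ (x k).sc / (S.F k).n) →
      ∀ᶠ k in UF, (x k).l.T.pb (fun ω => ¬ ∀ y, qf ((x k).g' ω) y ≤ 2 ^ (e * (S.F k).n) * qf ((x k).g ω) y) ≤ e := by
  by_contra hc
  have h1 : ∀ j : ℕ, ∃ x : ∀ k, FD (S.F k) ι,
      (∀ᶠ k in UF, Φ.Admf A (1 / ((j : ℝ) + 1)) k (x k) ∧ C.P k (x k).l ∧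
        ul (fun k => (x₀ k).sc / (S.F k).n) - 1 / ((j : ℝ) + 1) ≤ (x k).sc / (S.F k).n) ∧
      ∀ᶠ k in UF, e ≤ (x k).l.T.pb (fun ω => ¬ ∀ y, qf ((x k).g' ω) y ≤ 2 ^ (e * (S.F k).n) * qf ((x k).g ω) y) := by
    intro j
    by_contra hj
    apply hc
    refine ⟨1 / ((j : ℝ) + 1), by positivity, fun x hx => ?_⟩
    by_contra hx'
    apply hj
    refine ⟨x, hx, ?_⟩
    have h2 := Ultrafilter.eventually_not.mpr hx'
    filter_upwards [h2] with k hk
    exact (not_le.mp hk).le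
  choose x hx hx' using h1
  obtain ⟨y, J, hJ, hy, hP⟩ := Φ.diagfK C A x (fun j k z =>
      ul (fun k => (x₀ k).sc / (S.F k).n) - 1 / ((j : ℝ) + 1) ≤ z.sc / (S.F k).n ∧
      e ≤ z.l.T.pb (fun ω => ¬ ∀ y, qf (z.g' ω) y ≤ 2 ^ (e * (S.F k).n) * qf (z.g ω) y)) (by
    intro j
    filter_upwards [hx j, hx' j] with k a b using ⟨a.1, a.2.1, a.2.2, b⟩)
  have h0 : Tendsto (fun k => 1 / ((J k : ℝ) + 1)) UF (𝓝 0) :=
    tendsto_one_div_add_atTop_nhds_zero_nat.comp hJ
  have h3 : ul (fun k => (x₀ k).sc / (S.F k).n) ≤ ul (fun k => (y k).sc / (S.F k).n) := by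
    have h4 : Tendsto (fun k => ul (fun k => (x₀ k).sc / (S.F k).n) - 1 / ((J k : ℝ) + 1)) UF
        (𝓝 (ul (fun k => (x₀ k).sc / (S.F k).n))) := by
      have := h0.const_sub (ul (fun k => (x₀ k).sc / (S.F k).n))
      rwa [sub_zero] at this
    exact le_of_tendsto_of_tendsto h4 (ul_tendsto (Φ.sc_UBf hy.1)) (by filter_upwards [hP] with k hk using hk.1)
  have h4 := Φ.opt_nearfK C hy (fun z hz => (h₀.2 z hz).trans h3) e he
  have h5 : e ≤ 0 := by
    apply ge_of_tendsto h4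
    filter_upwards [hP] with k hk using hk.2
  linarith

variable {C}

theorem Gau.AdfK.dm {A : κ → Part S} {x : ∀ k, FD (S.F k) ι} (hx : Φ.AdfK C A x) :
    Lab.DMf (fun k => (x k).l) A := Gau.Adf.dm Φ hx.1

theorem Gau.AdfK.jn [Finite κ] {A : κ → Part S} {x : ∀ k, FD (S.F k) ι} (hx : Φ.AdfK C A x) {l : Lab S}
    (hl : l.DMf A) (hC : C.ev l) : Φ.AdfK C A (fun k => (x k).jn (l k)) :=
  ⟨Gau.Adf.jn Φ hx.1 hl, LC.ev.join hx.2 hC⟩

theorem Gau.OptfK.jn [Finite κ] {A : κ → Part S} {x : ∀ k, FD (S.F k) ι} (hx : Φ.OptfK C A x) {l : Lab S}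
    (hl : l.DMf A) (hC : C.ev l) : Φ.OptfK C A (fun k => (x k).jn (l k)) := by
  refine ⟨Gau.AdfK.jn Φ hx.1 hl hC, fun y hy => ?_⟩
  have h1 : (fun k => ((x k).jn (l k)).sc / (S.F k).n) = fun k => (x k).sc / (S.F k).n := by
    funext k
    rw [(x k).jn_sc (l k)]
  rw [h1]
  exact hx.2 y hy

/-- one label of the class which is informationally maximal in the class and carries an optimal form -/
theorem Gau.exists_kapfK [Finite κ] (C : LC S) (A : κ → Part S) {i₀ : κ} (hA : (A i₀).Bd) :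
    ∃ x : ∀ k, FD (S.F k) ι, Φ.OptfK C A x ∧ Lab.IsMaxK C (fun k => (x k).l) A := by
  obtain ⟨x, hx⟩ := Φ.exists_optfK C A
  obtain ⟨l, hl⟩ := Lab.exists_maxK C A hA
  have h0 := Gau.OptfK.jn Φ hx hl.1 hl.2.1
  refine ⟨fun k => (x k).jn (l k), h0, Gau.Adf.dm Φ h0.1.1, h0.1.2, fun l' hl' hC' => ?_⟩
  refine (hl.2.2 l' hl' hC').trans ?_
  apply ul_mono (hl.1.ub hA) ((Gau.Adf.dm Φ h0.1.1).ub hA)
  refine Eventually.of_forall fun k => div_le_div_of_nonneg_right ?_ (S.F k).pos.le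
  exact (x k).l.join_info_ge_right (l k)

theorem Gau.AdfK.jj {A : κ → Part S} {x y : ∀ k, FD (S.F k) ι} (hx : Φ.AdfK C A x) (hy : Φ.AdfK C A y) :
    Φ.AdfK C A (fun k => (x k).jj (y k)) := ⟨Gau.Adf.jj Φ hx.1 hy.1, LC.ev.join hx.2 hy.2⟩

/-- an optimal form of a class dominates the forms of all other labels of the class, in the join -/
theorem Gau.OptfK.dom {A : κ → Part S} {x y : ∀ k, FD (S.F k) ι} (hx : Φ.OptfK C A x) (hy : Φ.AdfK C A y) (e : ℝ)
    (he : 0 < e) : Tendsto (fun k => ((x k).jj (y k)).l.T.pb (fun w =>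
      ¬ ∀ v, qf (((x k).jj (y k)).g' w) v ≤ 2 ^ (e * (S.F k).n) * qf (((x k).jj (y k)).g w) v)) UF (𝓝 0) := by
  apply Φ.opt_nearfK C (Gau.AdfK.jj Φ hx.1 hy)
  · intro z hz
    have h1 : (fun k => ((x k).jj (y k)).sc / (S.F k).n) = fun k => (x k).sc / (S.F k).n := by
      funext k
      rw [(x k).jj_sc (y k)]
    rw [h1]
    exact hx.2 z hz
  · exact he

/-- transfer of lower bounds of monotone functionals to the optimal form of a class -/
theorem Gau.OptfK.lower {A : κ → Part S} {x y : ∀ k, FD (S.F k) ι} (hx : Φ.OptfK C A x) (hy : Φ.AdfK C A y)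
    (G : ∀ k, (S.F k).Ω → Matrix ι ι ℝ → ℝ)
    (hG : ∀ k ω M N (c : ℝ), 0 ≤ c → (∀ v, qf M v ≤ c * qf N v) → G k ω M ≤ c * G k ω N)
    (σ : ℝ) (hσ : ∀ e : ℝ, 0 < e → Tendsto (fun k => (y k).l.T.pb (fun ω =>
      ¬ 2 ^ ((σ - e) * (S.F k).n) ≤ G k ((y k).l.p.π ω) ((y k).g ω))) UF (𝓝 0)) (e : ℝ) (he : 0 < e) :
    Tendsto (fun k => (x k).l.T.pb (fun ω =>
      ¬ 2 ^ ((σ - e) * (S.F k).n) ≤ G k ((x k).l.p.π ω) ((x k).g ω))) UF (𝓝 0) := by
  have h2 : 0 < e / 2 := by linarith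
  have h3 := (Gau.OptfK.dom Φ hx hy _ h2).add (hσ _ h2)
  rw [add_zero] at h3
  refine tendsto_of_tendsto_of_tendsto_of_le_of_le tendsto_const_nhds h3
    (fun k => (x k).l.T.pb_nonneg _) (fun k => ?_)
  have h4 := pb_push ((x k).l.am (y k).l).p1 (fun ω =>
      ¬ 2 ^ ((σ - e) * (S.F k).n) ≤ G k ((x k).l.p.π ω) ((x k).g ω))
  have h5 := pb_push ((x k).l.am (y k).l).p2 (fun ω =>
      ¬ 2 ^ ((σ - e / 2) * (S.F k).n) ≤ G k ((y k).l.p.π ω) ((y k).g ω))
  show _ ≤ ((x k).jj (y k)).l.T.pb _ + _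
  rw [← h4, ← h5]
  refine le_trans (FSp.pb_mono _ (E' := fun w : ((x k).l.am (y k).l).sp.Ω =>
    (¬ ∀ v, qf (((x k).jj (y k)).g' w) v ≤ 2 ^ (e / 2 * (S.F k).n) * qf (((x k).jj (y k)).g w) v) ∨
    ¬ 2 ^ ((σ - e / 2) * (S.F k).n) ≤ G k ((y k).l.p.π (((x k).l.am (y k).l).p2.π w))
      ((y k).g (((x k).l.am (y k).l).p2.π w))) ?_) (pb_or _ _ _)
  intro w hw h6
  by_contra hc
  rw [not_or, not_not, not_not] at hc
  apply h6
  have e1 : (x k).l.p.π (((x k).l.am (y k).l).p1.π w) = (y k).l.p.π (((x k).l.am (y k).l).p2.π w) :=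
    (x k).jj_supp (y k) w hw
  have h7 := hG k ((x k).l.p.π (((x k).l.am (y k).l).p1.π w)) _ _ _ (by positivity) hc.1
  have h8 := hc.2
  rw [← e1] at h8
  have h9 : (2 : ℝ) ^ ((σ - e / 2) * (S.F k).n) ≤ 2 ^ (e / 2 * (S.F k).n) *
      G k ((x k).l.p.π (((x k).l.am (y k).l).p1.π w)) ((x k).g (((x k).l.am (y k).l).p1.π w)) := h8.trans h7
  have e2 : (2 : ℝ) ^ ((σ - e / 2) * (S.F k).n) = 2 ^ (e / 2 * (S.F k).n) * 2 ^ ((σ - e) * (S.F k).n) := by
    rw [← Real.rpow_add (by norm_num)]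
    congr 1; ring
  rw [e2] at h9
  exact le_of_mul_le_mul_left h9 (by positivity)

end

end Pool.Agent.Helper89.LX
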