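import Pool.Agent.Helper17.KL.Can
import Pool.Agent.Helper87.NSL.R2R

/-! K-LABELS, part 2: THEOREM COST over a form which is optimal among the labels whose leak at the resolution `R` of the
point is EXACTLY zero. The near maximiser of the variational principle is resampled at `R`. The gauge is compared with a
gauge which is a function of `R`. -/

set_option autoImplicit false

namespace Pool.Agent.Helper17.KL

open Finset Filter Topology Matrix Pool.Agent.Helper69.RK Pool.Agent.Helper31.EC Pool.Agent.Helper40.EL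
open Pool.Agent.Helper84.MT Pool.Agent.Helper3.LF Pool.Agent.Helper59.LF Pool.Agent.Helper89.LX
open Pool.Agent.Helper48.NS Pool.Agent.Helper87.NSL
open Pool.Agent.Helper95.LF (PdM)

noncomputable section

/-- VARIATIONAL PRINCIPLE, the result has no leak at all at the condition `i₀` -/
theorem varifK (T : Sp) (X : Type) {κ : Type} (A : κ → Part T) (i₀ : κ) (G : ∀ k, (T.F k).Ω → X → Prop)
    (hG : ∀ k ω ω' c, (T.F k).μ ω ≠ 0 → (T.F k).μ ω' ≠ 0 → (T.F k).Z ω ω' → G k ω c → G k ω' c)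
    (f : ∀ k, (T.F k).Ω → X → ℝ) (M : ℝ) (hf : ∀ k ω c, f k ω c ≤ M)
    (Cp : κ → ℝ) (C : ℝ) (hC : 0 ≤ C)
    (hA : ∀ i, Cp i < C) (ε : κ → ℕ → ℝ) (hε : ∀ i, Tendsto (ε i) UF (𝓝 0))
    (sA : ∀ i, ∀ᶠ k in UF, ∀ x : CL (T.F k) X, x.Good (G k) →
      x.E (f k) - Cp i * (x.l.leak (A i k) / (T.F k).n) - ε i k ≤ (x.rs (A i k)).E (f k))
    (x₀ : ∀ k, CL (T.F k) X) (h₀ : ∀ᶠ k in UF, (x₀ k).Good (G k)) :
    ∃ y : ∀ k, CL (T.F k) X, (∀ᶠ k in UF, (y k).Good (G k)) ∧ Lab.DMf (fun k => (y k).l) A ∧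
      (∀ k, (y k).l.leak (A i₀ k) = 0) ∧
      ∀ᶠ k in UF, (x₀ k).E (f k) - C * ((x₀ k).l.info / (T.F k).n) - ε i₀ k ≤ (y k).E (f k) := by
  classical
  have hex : ∀ k, ∃ y : CL (T.F k) X, (x₀ k).Good (G k) → (y.Good (G k) ∧ (x₀ k).pot (f k) C ≤ y.pot (f k) C ∧
      ∀ z : CL (T.F k) X, z.Good (G k) → z.pot (f k) C ≤ y.pot (f k) C + 1 / (T.F k).n) := by
    intro k
    by_cases h : (x₀ k).Good (G k)
    · obtain ⟨y, h1, h2, h3⟩ := CL.near_max (G k) (f k) M C (1 / (T.F k).n) (hf k) hC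
        (div_pos one_pos (T.F k).pos) (x₀ k) h
      exact ⟨y, fun _ => ⟨h1, h2, h3⟩⟩
    · exact ⟨x₀ k, fun h' => absurd h' h⟩
  choose y hy using hex
  have hδ : Tendsto (fun k => 1 / (T.F k).n) UF (𝓝 0) := T.div_n_tendsto 1
  -- the potential after resampling
  have hpot : ∀ᶠ k in UF, (y k).Good (G k) ∧ (y k).pot (f k) C - ε i₀ k ≤ ((y k).rs (A i₀ k)).pot (f k) C := by
    filter_upwards [h₀, sA i₀] with k hk hs
    obtain ⟨a1, a2, a3⟩ := hy k hk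
    refine ⟨a1, ?_⟩
    have b1 := hs (y k) a1
    have b2 : ((y k).rs (A i₀ k)).l.info = (y k).l.info - (y k).l.leak (A i₀ k) := (y k).l.rs_info (A i₀ k)
    have b3 : 0 ≤ (C - Cp i₀) * ((y k).l.leak (A i₀ k) / (T.F k).n) :=
      mul_nonneg (by linarith [hA i₀]) (div_nonneg (FLab.leak_nonneg _ _) (T.F k).pos.le)
    unfold CL.pot
    rw [b2, sub_div]
    linarith
  have hgood : ∀ᶠ k in UF, ((y k).rs (A i₀ k)).Good (G k) := by
    filter_upwards [hpot] with k hk using (y k).rs_good (A i₀ k) (hG k) hk.1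
  have hDM : Lab.DMf (fun k => ((y k).rs (A i₀ k)).l) A := by
    intro i
    have h1 : Tendsto (fun k => (C - Cp i)⁻¹ * (1 / (T.F k).n + ε i₀ k + ε i k)) UF (𝓝 0) := by
      have := ((hδ.add (hε i₀)).add (hε i)).const_mul (C - Cp i)⁻¹
      rwa [add_zero, add_zero, mul_zero] at this
    refine tendsto_of_tendsto_of_tendsto_of_le_of_le' tendsto_const_nhds h1 ?_ ?_
    · exact Eventually.of_forall fun k => div_nonneg (FLab.leak_nonneg _ _) (T.F k).pos.le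
    · filter_upwards [h₀, sA i, hpot, hgood] with k hk hs hp hg
      obtain ⟨a1, a2, a3⟩ := hy k hk
      have a4 := CL.small_leak (G k) (hG k) (f k) C (Cp i) (1 / (T.F k).n + ε i₀ k) (ε i k) ((y k).rs (A i₀ k)) hg
        (fun z hz => by have := a3 z hz; linarith [hp.2]) (A i k) (hs _ hg)
      rw [inv_mul_eq_div, le_div_iff₀ (by linarith [hA i]), mul_comm]
      exact a4
  refine ⟨fun k => (y k).rs (A i₀ k), hgood, hDM, fun k => (y k).l.rs_leak (A i₀ k), ?_⟩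
  filter_upwards [h₀, hpot] with k hk hp
  obtain ⟨a1, a2, a3⟩ := hy k hk
  have a4 : 0 ≤ C * (((y k).rs (A i₀ k)).l.info / (T.F k).n) :=
    mul_nonneg hC (div_nonneg (FLab.info_nonneg _) (T.F k).pos.le)
  have a5 := hp.2
  unfold CL.pot at a2 a5
  linarith

variable {ι : Type} [Fintype ι] [DecidableEq ι] {S : Sp} {Φ : Gau S ι} {x : ∀ k, FD (S.F k) ι}
  {y : ∀ k, CL ((Ov x).F k) (ι → ℝ)} {κ : Type}

/-- a gain over an admissible form increases the score -/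
theorem gain_sc [Finite κ] {A : κ → Part S} (hsm : Gau.Hom Φ) (D : ℝ) (hD : 0 ≤ D) (hx : Φ.Adf A x)
    (hG : ∀ᶠ k in UF, (y k).Good (GdC x k))
    (hy : Lab.DMf (S := Ov x) (fun k => (y k).l) (fun i => Lab.up (fun k => (x k).l) 1 one_pos (A i)))
    (θ : ℝ) (hθ : 0 < θ) (hE : ∀ᶠ k in UF, θ ≤ (y k).E (fex Φ x D k)) :
    ul (fun k => (x k).sc / (S.F k).n) + θ ≤ ul (fun k => (nw Φ x y D k).sc / (S.F k).n) := by
  classical
  have hAd := nw_Adf (y := y) hsm D hD hx hG hy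
  set η : ℝ := min (1 / 2) (θ / (4 * (D + 1))) with hη
  have hη0 : 0 < η := lt_min (by norm_num) (by positivity)
  have hη1 : η ≤ 1 / 2 := min_le_left _ _
  have hη2 : D * η ≤ θ / 4 := by
    have h1 : η ≤ θ / (4 * (D + 1)) := min_le_right _ _
    have h2 : D * η ≤ (D + 1) * (θ / (4 * (D + 1))) := by nlinarith
    have h3 : (D + 1) * (θ / (4 * (D + 1))) = θ / 4 := by field_simp
    linarith
  have hnk : ∀ᶠ k in UF, (4 / θ + 2 : ℝ) ≤ (S.F k).n := S.lim.eventually (eventually_ge_atTop _)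
  have hgain : ∀ᶠ k in UF, (x k).sc / (S.F k).n + θ ≤ (nw Φ x y D k).sc / (S.F k).n := by
    filter_upwards [hx η hη0, hG, hE, Φ.cap, hnk] with k hk hGk hEk hcap hnk
    have hn := (S.F k).pos
    have h4θ : 0 < 4 / θ := by positivity
    have h1 := nw_sc (Φ := Φ) (x := x) (y := y) D hD k (fun ω h => (hk.2.1 ω h).1) hGk
    have h2 : (y k).l.T.pb (fun ω => ¬ Cpd (Φ.cp k) (g1 Φ x y D k ω)) ≤ η := by
      have h3 : (y k).l.T.pb (fun ω => ¬ Cpd (Φ.cp k) (g1 Φ x y D k ω)) ≤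
          (y k).l.T.pb (fun ω => ¬ Φ.φ k ((x k).l.p.π ((y k).l.p.π ω)) ((x k).g ((y k).l.p.π ω)) ≤
            2 ^ (η * (S.F k).n)) := by
        apply FSp.pb_mono
        intro ω h0 h3 h4
        apply h3
        have a1 : (x k).l.T.μ ((y k).l.p.π ω) ≠ 0 := (y k).l.p.supp ω h0
        apply g1_cpd hsm D hD k ω (fun A hA v => hcap _ ((x k).l.p.supp _ a1) A hA v) (by linarith)
          (hk.2.1 _ a1).1 (hGk ω h0)
        refine h4.trans (Real.rpow_le_rpow_of_exponent_le (by norm_num) ?_)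
        exact mul_le_mul_of_nonneg_right hη1 hn.le
      have h6 := pb_y (y := y) k (fun ω => ¬ Φ.φ k ((x k).l.p.π ω) ((x k).g ω) ≤ 2 ^ (η * (S.F k).n))
      have h7 := hk.2.2.1
      linarith
    rw [← sub_nonneg]
    have e1 : (nw Φ x y D k).sc / (S.F k).n - ((x k).sc / (S.F k).n + θ) =
        ((nw Φ x y D k).sc - (x k).sc - θ * (S.F k).n) / (S.F k).n := by
      field_simp
      ring
    rw [e1]
    apply div_nonneg _ hn.le
    have h8 : (S.F k).n * D * (y k).l.T.pb (fun ω => ¬ Cpd (Φ.cp k) (g1 Φ x y D k ω)) ≤ (S.F k).n * (θ / 4) := by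
      have a1 : D * (y k).l.T.pb (fun ω => ¬ Cpd (Φ.cp k) (g1 Φ x y D k ω)) ≤ θ / 4 :=
        (mul_le_mul_of_nonneg_left h2 hD).trans hη2
      calc _ = (S.F k).n * (D * (y k).l.T.pb (fun ω => ¬ Cpd (Φ.cp k) (g1 Φ x y D k ω))) := by ring
        _ ≤ _ := mul_le_mul_of_nonneg_left a1 hn.le
    have h9 : (S.F k).n * θ ≤ (S.F k).n * (y k).E (fex Φ x D k) := mul_le_mul_of_nonneg_left hEk hn.le
    have h10 : 4 ≤ θ * (S.F k).n := by
      have : 4 / θ ≤ (S.F k).n := by linarith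
      rw [div_le_iff₀ hθ] at this
      linarith
    nlinarith
  have h1 := ul_mono ((Φ.sc_UBf hx).add (UB_const θ)) (Φ.sc_UBf hAd) hgain
  rw [ul_add (Φ.sc_UBf hx) (UB_const θ), ul_const] at h1
  exact h1


/-- the gauge of squares of linear forms is a function of `R` (and of the base) -/
def GauR (Φ : Gau S ι) (R : ∀ k, Setoid (S.F k).Ω) : Prop := ∀ᶠ k in UF, ∀ ω ω', (S.F k).μ ω ≠ 0 →
  (S.F k).μ ω' ≠ 0 → R k ω ω' → (S.F k).Z ω ω' → ∀ c : ι → ℝ, Φ.φ k ω (cc c) = Φ.φ k ω' (cc c)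

/-- adding a function of the label, of the condition and of the base keeps the leak zero -/
theorem fadd_leak_zero {F : FSp} (l : FLab F) (R : Setoid F.Ω) (W : Setoid l.T.Ω) (hl : l.leak (fc R) = 0)
    (hW : ∀ ω ω', l.T.μ ω ≠ 0 → l.T.μ ω' ≠ 0 → l.T.Z ω ω' → l.V ω ω' → R (l.p.π ω) (l.p.π ω') → W ω ω') :
    (fadd l W).leak (fc R) = 0 := by
  have h1 := fadd_leak l W (fc R)
  have h2 : h (fc W) (l.v ⊔ l.p.map (fc R)) = 0 := by
    apply h_zero
    have e1 : l.v ⊔ l.p.map (fc R) = fc (l.V ⊓ Setoid.comap l.p.π R) := rfl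
    rw [e1]
    apply fc_le
    intro ω ω' a b c d
    exact hW ω ω' a b c d.1 d.2
  rw [hl, h2, add_zero] at h1
  exact le_antisymm h1 (FLab.leak_nonneg _ _)

/-- the label of the larger form is an exact K-label -/
theorem nw_kz {R : ∀ k, Setoid (S.F k).Ω} (hR : GauR Φ R) (D : ℝ)
    (hx : (LC.kz (fun k => fc (R k))).ev (fun k => (x k).l))
    (hy : ∀ᶠ k in UF, (y k).l.leak (Lab.up (fun k => (x k).l) 1 one_pos (fun k => fc (R k)) k) = 0) :
    (LC.kz (fun k => fc (R k))).ev (fun k => (nw Φ x y D k).l) := by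
  filter_upwards [hx, hy, hR] with k h1 h2 h3
  have h1' : (x k).l.leak (fc (R k)) = 0 := h1
  have h4 : ((x k).l.comp 1 one_pos (y k).l).leak (fc (R k)) = 0 := by
    have t1 : ((x k).l.comp 1 one_pos (y k).l).leak (fc (R k)) ≤ (x k).l.leak (fc (R k)) +
        (y k).l.leak (Lab.up (fun k => (x k).l) 1 one_pos (fun k => fc (R k)) k) :=
      (x k).l.comp_leak_le 1 one_pos (y k).l (fc (R k))
    rw [h1', h2, add_zero] at t1
    exact le_antisymm t1 (FLab.leak_nonneg _ _)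
  show (fadd ((x k).l.comp 1 one_pos (y k).l) (Setoid.ker (Nb Φ x y D k))).leak (fc (R k)) = 0
  apply fadd_leak_zero _ _ _ h4
  intro ω ω' h h' hZ hV hRR
  have a1 : (x k).l.T.μ ((y k).l.p.π ω) ≠ 0 := (y k).l.p.supp ω h
  have a2 : (x k).l.T.μ ((y k).l.p.π ω') ≠ 0 := (y k).l.p.supp ω' h'
  have b1 : (x k).l.V ((y k).l.p.π ω) ((y k).l.p.π ω') := hV.1
  have b2 : (y k).l.V ω ω' := hV.2
  have b4 : (x k).l.T.Z ((y k).l.p.π ω) ((y k).l.p.π ω') := ((x k).l.p.hZ _ _ a1 a2).mpr hZ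
  have b5 : (y k).l.T.Z ω ω' := ((y k).l.p.hZ ω ω' h h').mpr ⟨b1, b4⟩
  have c2 : (y k).c ω = (y k).c ω' := (y k).meas _ _ h h' b2 b5
  have d1 : (S.F k).μ ((x k).l.p.π ((y k).l.p.π ω)) ≠ 0 := (x k).l.p.supp _ a1
  have d2 : (S.F k).μ ((x k).l.p.π ((y k).l.p.π ω')) ≠ 0 := (x k).l.p.supp _ a2
  have d3 : (S.F k).Z ((x k).l.p.π ((y k).l.p.π ω)) ((x k).l.p.π ((y k).l.p.π ω')) :=
    ((x k).l.p.hZ _ _ a1 a2).mp b4
  have d4 := h3 _ _ d1 d2 hRR d3 ((y k).c ω)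
  show Nb Φ x y D k ω = Nb Φ x y D k ω'
  unfold Nb fex
  rw [← c2, d4]

/-- an optimal form among exact K-labels leaves no gain -/
theorem no_gainK [Finite κ] {A : κ → Part S} {R : ∀ k, Setoid (S.F k).Ω} (hR : GauR Φ R) (hsm : Gau.Hom Φ) (D : ℝ)
    (hD : 0 ≤ D) (hx : Φ.OptfK (LC.kz (fun k => fc (R k))) A x)
    (hG : ∀ᶠ k in UF, (y k).Good (GdC x k))
    (hy : Lab.DMf (S := Ov x) (fun k => (y k).l) (fun i => Lab.up (fun k => (x k).l) 1 one_pos (A i)))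
    (hyK : ∀ᶠ k in UF, (y k).l.leak (Lab.up (fun k => (x k).l) 1 one_pos (fun k => fc (R k)) k) = 0)
    (θ : ℝ) (hθ : 0 < θ) (hE : ∀ᶠ k in UF, θ ≤ (y k).E (fex Φ x D k)) : False := by
  have h1 := gain_sc hsm D hD hx.1.1 hG hy θ hθ hE
  have h2 := hx.2 _ ⟨nw_Adf (y := y) hsm D hD hx.1.1 hG hy, nw_kz hR D hx.1.2 hyK⟩
  linarith

/-- two gauges which agree up to a tame factor -/
structure GNr (Φ Φ' : Gau S ι) (K : ℕ → ℝ) : Prop where
  hC : Φ'.C = Φ.C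
  sub : S.Sub K
  pd : ∀ᶠ k in UF, ∀ ω, (S.F k).μ ω ≠ 0 → ∀ A, PdM A → Φ'.φ k ω A ≤ K k * Φ.φ k ω A
  sq : ∀ᶠ k in UF, 1 ≤ K k ∧ ∀ ω, (S.F k).μ ω ≠ 0 → ∀ c : ι → ℝ, Φ'.φ k ω (cc c) ≤ K k * Φ.φ k ω (cc c)

theorem GNr.adf {Φ' : Gau S ι} {K : ℕ → ℝ} (h : GNr Φ Φ' K) {A : κ → Part S} {x : ∀ k, FD (S.F k) ι}
    (hx : Φ.Adf A x) : Φ'.Adf A x := by
  intro η hη
  have hη2 : 0 < η / 2 := by linarith
  filter_upwards [hx _ hη2, h.pd, h.sub.eventually_le hη2, h.sq] with k hk hp hK hs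
  have hn := (S.F k).pos
  have hcp : Φ'.cp k = Φ.cp k := by unfold Gau.cp; rw [h.hC]
  have key : ∀ (g : (x k).l.T.Ω → Matrix ι ι ℝ), (∀ ω, (x k).l.T.μ ω ≠ 0 → Cpd (Φ.cp k) (g ω)) →
      (x k).l.T.pb (fun ω => ¬ Φ.φ k ((x k).l.p.π ω) (g ω) ≤ 2 ^ (η / 2 * (S.F k).n)) ≤ η / 2 →
      (x k).l.T.pb (fun ω => ¬ Φ'.φ k ((x k).l.p.π ω) (g ω) ≤ 2 ^ (η * (S.F k).n)) ≤ η := by
    intro g hg h1
    have h2 : (x k).l.T.pb (fun ω => ¬ Φ'.φ k ((x k).l.p.π ω) (g ω) ≤ 2 ^ (η * (S.F k).n)) ≤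
        (x k).l.T.pb (fun ω => ¬ Φ.φ k ((x k).l.p.π ω) (g ω) ≤ 2 ^ (η / 2 * (S.F k).n)) := by
      apply FSp.pb_mono
      intro ω h0 h3 h4
      apply h3
      refine (hp _ ((x k).l.p.supp ω h0) _ (hg ω h0).pdM).trans ?_
      have e1 : (2 : ℝ) ^ (η * (S.F k).n) = 2 ^ (η / 2 * (S.F k).n) * 2 ^ (η / 2 * (S.F k).n) := by
        rw [← Real.rpow_add (by norm_num)]
        congr 1
        ring
      rw [e1]
      exact mul_le_mul (by linarith) h4 (Φ.nn k _ _ (hg ω h0).psd) (by positivity)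
    linarith
  have e2 : η / 2 * (S.F k).n ≤ η * (S.F k).n := by nlinarith
  refine ⟨fun i => (hk.1 i).trans e2, fun ω h0 => ?_, key _ (fun ω h0 => (hk.2.1 ω h0).1) hk.2.2.1,
    key _ (fun ω h0 => (hk.2.1 ω h0).2) hk.2.2.2⟩
  rw [hcp]
  exact hk.2.1 ω h0

theorem GNr.optK {Φ' : Gau S ι} {K K' : ℕ → ℝ} (h : GNr Φ Φ' K) (h' : GNr Φ' Φ K') {A : κ → Part S} {C : LC S}
    {x : ∀ k, FD (S.F k) ι} (hx : Φ.OptfK C A x) : Φ'.OptfK C A x :=
  ⟨⟨h.adf hx.1.1, hx.1.2⟩, fun y hy => hx.2 y ⟨h'.adf hy.1, hy.2⟩⟩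

/-- comparison of the exponents -/
theorem GNr.fexE {Φ' : Gau S ι} {K : ℕ → ℝ} (h : GNr Φ Φ' K) (D : ℝ) (y : ∀ k, CL ((Ov x).F k) (ι → ℝ)) :
    ∀ᶠ k in UF, (y k).E (fex Φ x D k) - Real.logb 2 (K k) / (2 * (S.F k).n) ≤ (y k).E (fex Φ' x D k) := by
  filter_upwards [h.sq] with k hk
  have e1 : (y k).E (fex Φ x D k) - Real.logb 2 (K k) / (2 * (S.F k).n) =
      ∑ ω, (y k).l.T.μ ω * (fex Φ x D k ((y k).l.p.π ω) ((y k).c ω) - Real.logb 2 (K k) / (2 * (S.F k).n)) := by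
    unfold CL.E
    simp only [mul_sub, Finset.sum_sub_distrib, ← Finset.sum_mul]
    rw [(y k).T_mass, one_mul]
  rw [e1]
  unfold CL.E
  apply Finset.sum_le_sum
  intro ω _
  by_cases h0 : (y k).l.T.μ ω = 0
  · rw [h0, zero_mul, zero_mul]
  · apply mul_le_mul_of_nonneg_left _ ((y k).l.T.nn ω)
    have a1 : (x k).l.T.μ ((y k).l.p.π ω) ≠ 0 := (y k).l.p.supp ω h0
    exact ex_scale (S.F k).pos hk.1 (hk.2 _ ((x k).l.p.supp _ a1) _)

theorem GNr.small {Φ' : Gau S ι} {K : ℕ → ℝ} (h : GNr Φ Φ' K) :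
    Tendsto (fun k => Real.logb 2 (K k) / (2 * (S.F k).n)) UF (𝓝 0) := by
  refine tendsto_of_tendsto_of_tendsto_of_le_of_le' tendsto_const_nhds h.sub.2 ?_ ?_
  · filter_upwards [h.sq] with k hk
    have := Real.logb_nonneg (b := 2) (by norm_num) hk.1
    have := (S.F k).pos
    positivity
  · filter_upwards [h.sq] with k hk
    have hn := (S.F k).pos
    have b2 := Real.logb_nonneg (b := 2) (by norm_num) hk.1
    have b3 : Real.logb 2 (K k) ≤ Real.logb 2 (K k + 2) :=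
      Real.logb_le_logb_of_le (by norm_num) (by linarith [hk.1]) (by linarith)
    rw [div_le_div_iff₀ (by positivity) hn]
    nlinarith

/-- THEOREM COST over a form which is optimal among exact K-labels -/
theorem costgK [Finite κ] {A : κ → Part S} {R : ∀ k, Setoid (S.F k).Ω} {Φ' : Gau S ι} {K K' : ℕ → ℝ}
    (hn : GNr Φ Φ' K) (hn' : GNr Φ' Φ K') (hR : GauR Φ' R) (hsm' : Gau.Hom Φ') (D : ℝ) (hD : 0 ≤ D)
    (hx : Φ.OptfK (LC.kz (fun k => fc (R k))) A x) {κ' : Type} (B : κ' → Part (Ov x)) (i₀ : κ')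
    (hi₀ : B i₀ = Lab.up (fun k => (x k).l) 1 one_pos (fun k => fc (R k)))
    (hBA : ∀ z : Lab (Ov x), z.DMf B → z.DMf (fun i => Lab.up (fun k => (x k).l) 1 one_pos (A i)))
    (CA : ℝ) (hCA : 0 ≤ CA) (Cp : κ' → ℝ) (hCp : ∀ i, Cp i ≤ CA) (ε : κ' → ℕ → ℝ) (hε : ∀ i, Tendsto (ε i) UF (𝓝 0))
    (sA : ∀ i, ∀ᶠ k in UF, ∀ z : CL ((Ov x).F k) (ι → ℝ), z.Good (GdC x k) →
      z.E (fex Φ x D k) - Cp i * (z.l.leak (B i k) / ((Ov x).F k).n) - ε i k ≤ (z.rs (B i k)).E (fex Φ x D k))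
    (y₀ : ∀ k, CL ((Ov x).F k) (ι → ℝ)) (h₀ : ∀ᶠ k in UF, (y₀ k).Good (GdC x k))
    (hU : UB (fun k => (y₀ k).l.info / ((Ov x).F k).n)) :
    ul (fun k => (y₀ k).E (fex Φ x D k)) ≤ CA * ul (fun k => (y₀ k).l.info / ((Ov x).F k).n) := by
  by_contra hcon
  rw [not_le] at hcon
  have hf0 : ∀ k (ω : ((Ov x).F k).Ω) (c : ι → ℝ), 0 ≤ fex Φ x D k ω c := fun k ω c => ex_nonneg (S.F k).pos hD
  have hf1 : ∀ k (ω : ((Ov x).F k).Ω) (c : ι → ℝ), fex Φ x D k ω c ≤ D := fun k ω c => ex_le (S.F k).pos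
  have hUE : UB (fun k => (y₀ k).E (fex Φ x D k)) := by
    apply UB_of_nonneg_le (C := D)
    · exact Eventually.of_forall fun k => (y₀ k).E_nonneg _ (hf0 k)
    · exact Eventually.of_forall fun k => (y₀ k).E_le _ _ (hf1 k)
  set e := ul (fun k => (y₀ k).E (fex Φ x D k)) with he
  set i := ul (fun k => (y₀ k).l.info / ((Ov x).F k).n) with hi
  have hi0 : 0 ≤ i := const_le_ul hU (Eventually.of_forall fun k =>
    div_nonneg (FLab.info_nonneg _) ((Ov x).F k).pos.le)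
  set θ : ℝ := e - CA * i with hθ
  have hθ0 : 0 < θ := by rw [hθ]; linarith
  set C : ℝ := CA + θ / (2 * (i + 1)) with hC
  have hC1 : CA < C := by
    have : 0 < θ / (2 * (i + 1)) := by positivity
    rw [hC]; linarith
  have hC2 : C * i ≤ CA * i + θ / 2 := by
    have h1 : θ / (2 * (i + 1)) * i ≤ θ / 2 := by
      rw [div_mul_eq_mul_div, div_le_div_iff₀ (by positivity) (by norm_num)]
      nlinarith
    rw [hC]; nlinarith
  obtain ⟨y, hy1, hy2, hy3, hy4⟩ := varifK (Ov x) (ι → ℝ) B i₀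
    (GdC x) (fun k ω ω' c h1 h2 hZ h => GdC_inv x k ω ω' c h1 h2 hZ h)
    (fex Φ x D) D hf1
    Cp C (by linarith) (fun i => (hCp i).trans_lt hC1) ε hε sA y₀ h₀
  apply no_gainK (y := y) hR hsm' D hD (hn.optK hn' hx) hy1 (hBA _ hy2) (Eventually.of_forall fun k => by
    have := hy3 k
    rw [hi₀] at this
    exact this) (θ / 8) (by linarith)
  have hlim : Tendsto (fun k => (y₀ k).E (fex Φ x D k) - C * ((y₀ k).l.info / ((Ov x).F k).n) - ε i₀ k -
      Real.logb 2 (K k) / (2 * (S.F k).n)) UF (𝓝 (e - C * i - 0 - 0)) :=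
    (((ul_tendsto hUE).sub ((ul_tendsto hU).const_mul C)).sub (hε i₀)).sub hn.small
  rw [sub_zero, sub_zero] at hlim
  have h5 : θ / 8 < e - C * i := by rw [hθ] at *; linarith
  filter_upwards [hy4, hn.fexE D y, hlim.eventually (lt_mem_nhds h5)] with k a b c
  linarith

end

noncomputable section

variable {S : Sp} {M D : ℕ} {E : ℕ → ℕ} {ι : Type}

/-- a point which is a function of `R` and of the base, in the same cells of the finest resolution -/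
def litQ (Q : S.VV M) (R : ∀ k, Setoid (S.F k).Ω) (hR : ∀ k, R k ≤ Setoid.ker (Q.cellv 1 k)) : S.VV M where
  v := fun k ω => Q.v k (Quotient.out (Quotient.mk (R k ⊓ (S.F k).Z) ω))
  bd := by
    obtain ⟨K, hK, h⟩ := Q.bd
    refine ⟨fun k => K k + 1, hK.add (S.Sub_const zero_le_one), ?_⟩
    filter_upwards [h] with k hk ω hω i
    have h1 : (R k ⊓ (S.F k).Z) (Quotient.out (Quotient.mk (R k ⊓ (S.F k).Z) ω)) ω :=
      Quotient.exact (Quotient.out_eq _)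
    have h2 : Q.cellv 1 k (Quotient.out (Quotient.mk (R k ⊓ (S.F k).Z) ω)) = Q.cellv 1 k ω := hR k h1.1
    have h3 := Q.cellv_close 1 k _ _ h2 i
    have h4 := hk ω hω i
    have h5 := dl_one_le S k
    rw [abs_le] at h3 h4 ⊢
    constructor
    · linarith [h3.1, h4.1]
    · linarith [h3.2, h4.2]

theorem litQ_close (Q : S.VV M) (R : ∀ k, Setoid (S.F k).Ω) (hR : ∀ k, R k ≤ Setoid.ker (Q.cellv 1 k)) (k : ℕ)
    (ω : (S.F k).Ω) (i : Fin M) : |(litQ Q R hR).v k ω i - Q.v k ω i| ≤ S.dl 1 k := by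
  have h1 : (R k ⊓ (S.F k).Z) (Quotient.out (Quotient.mk (R k ⊓ (S.F k).Z) ω)) ω :=
    Quotient.exact (Quotient.out_eq _)
  have h2 : Q.cellv 1 k (Quotient.out (Quotient.mk (R k ⊓ (S.F k).Z) ω)) = Q.cellv 1 k ω := hR k h1.1
  exact Q.cellv_close 1 k _ _ h2 i

theorem litQ_R (Q : S.VV M) (R : ∀ k, Setoid (S.F k).Ω) (hR : ∀ k, R k ≤ Setoid.ker (Q.cellv 1 k)) :
    GauR (gaq (litQ Q R hR) D) R := by
  refine Eventually.of_forall fun k ω ω' _ _ h hZ c => ?_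
  have h1 : Quotient.mk (R k ⊓ (S.F k).Z) ω = Quotient.mk (R k ⊓ (S.F k).Z) ω' :=
    Quotient.sound (s := R k ⊓ (S.F k).Z) ⟨h, hZ⟩
  show phi (S.dl 1 k) (cc c) (Q.v k (Quotient.out (Quotient.mk (R k ⊓ (S.F k).Z) ω))) =
    phi (S.dl 1 k) (cc c) (Q.v k (Quotient.out (Quotient.mk (R k ⊓ (S.F k).Z) ω')))
  rw [h1]

/-- the gauges of two points in the same cells -/
theorem gaq_nr (Q Q' : S.VV M) (h : ∀ k (ω : (S.F k).Ω) i, |Q'.v k ω i - Q.v k ω i| ≤ S.dl 1 k) :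
    GNr (gaq Q D) (gaq Q' D) (fun _ => cM M D 2) where
  hC := rfl
  sub := S.Sub_const (zero_le_one.trans (cM_one M D (by norm_num)))
  pd := by
    refine Eventually.of_forall fun k ω _ A hA => ?_
    exact phi_comp A hA (S.dl 1 k) (S.dl 1 k) 2 (S.dl_pos 1 k) (S.dl_pos 1 k).le (by norm_num) _ _
      (fun i => by have := h k ω i; linarith)
  sq := by
    refine Eventually.of_forall fun k => ⟨cM_one M D (by norm_num), fun ω _ c => ?_⟩
    show phi (S.dl 1 k) (cc c) (Q'.v k ω) ≤ _ * phi (S.dl 1 k) (cc c) (Q.v k ω)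
    rw [phi_ccM, phi_ccM]
    exact ph_nearM c _ _ (S.dl_pos 1 k) (by norm_num) _ _ (fun i => by have := h k ω i; linarith)

/-- THEOREM COST for exact K-labels: systems of leaves, the point known to the resolution `R`; `x` is optimal among the
labels without leak at the windows whose leak at `R` is EXACTLY zero -/
theorem cost_K [Finite ι] (s : MSys S M E ι) (hED : 1 ≤ E D) {c : ℝ} (h0 : 0 ≤ c) (h1 : c < 1)
    (R : ∀ k, Setoid (S.F k).Ω) (hR : ∀ k, R k ≤ Setoid.ker (s.Q.cellv 1 k))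
    (E₀ : ℝ) (hE0 : 0 ≤ E₀) (hE1 : E₀ ≤ E D * (1 - c)) {x : ∀ k, FD (S.F k) (Mon M D)}
    (hx : (gaq s.Q D).OptfK (LC.kz (fun k => fc (R k))) (cndR s R c) x) (y : ∀ k, CL ((Ov x).F k) (Mon M D → ℝ))
    (hy : ∀ᶠ k in UF, (y k).Good (GdC x k))
    (hU : UB (fun k => (y k).l.info / ((Ov x).F k).n)) :
    ul (fun k => (y k).E (fex (gaq s.Q D) x E₀ k)) ≤ E D * ul (fun k => (y k).l.info / ((Ov x).F k).n) := by
  classical
  have hN : (1 : ℝ) ≤ E D := by exact_mod_cast hED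
  have hL : ∀ i, Nul S (fun k => (x k).l.leak ((s.lf i).win c k)) := fun i => Gau.Adf.dm _ hx.1.1 (some i)
  set κ' := Option (Σ i : ι, Option (Fin (s.lf i).e)) with hκ'
  set B : κ' → Part (Ov x) := fun a => match a with
    | none => Lab.up (fun k => (x k).l) 1 one_pos (fun k => fc (R k))
    | some ⟨i, none⟩ => Lab.up (fun k => (x k).l) 1 one_pos (fun k => fc (tS (s.lf i) c k))
    | some ⟨i, some j⟩ => Lab.up (fun k => (x k).l) 1 one_pos (fun k => fc (cS (s.lf i) c j k)) with hB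
  have hstep : ∀ a : κ', ∃ ε : ℕ → ℝ, Tendsto ε UF (𝓝 0) ∧ ∀ᶠ k in UF, ∀ z : CL ((Ov x).F k) (Mon M D → ℝ),
      z.Good (GdC x k) → z.E (fex (gaq s.Q D) x E₀ k) - E D * (z.l.leak (B a k) / ((Ov x).F k).n) - ε k ≤
        (z.rs (B a k)).E (fex (gaq s.Q D) x E₀ k) := by
    intro a
    have hlk : ∀ (k : ℕ) (z : CL ((Ov x).F k) (Mon M D → ℝ)), 0 ≤ E D * (z.l.leak (B a k) / ((Ov x).F k).n) :=
      fun k z => mul_nonneg (by linarith) (div_nonneg (FLab.leak_nonneg _ _) ((Ov x).F k).pos.le)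
    rcases a with _ | ⟨i, _ | j⟩
    · obtain ⟨ε, hε, h⟩ := step_ptR (D := D) s.Q R hR E₀ x
      refine ⟨ε, hε, ?_⟩
      filter_upwards [h] with k hk z _
      have u1 := hk z
      have u2 := hlk k z
      show z.E _ - _ - ε k ≤ (z.rs (Lab.up (fun k => (x k).l) 1 one_pos (fun k => fc (R k)) k)).E _
      linarith
    · obtain ⟨ε, hε, h⟩ := step_leaf_t (D := D) (s.lf i) E₀ c x
      refine ⟨ε, hε, ?_⟩
      filter_upwards [h] with k hk z _
      have u1 := hk z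
      have u2 := hlk k z
      show z.E _ - _ - ε k ≤ (z.rs (Lab.up (fun k => (x k).l) 1 one_pos (fun k => fc (tS (s.lf i) c k)) k)).E _
      linarith
    · obtain ⟨ε, hε, h⟩ := step_leaf_c (D := D) (s.lf i) hED h0 h1 E₀ hE0 hE1 x (hL i) j
      refine ⟨ε, hε, ?_⟩
      filter_upwards [h] with k hk z _ using hk z
  choose ε hε hs using hstep
  have n1 : GNr (gaq s.Q D) (gaq (litQ s.Q R hR) D) (fun _ => cM M D 2) := gaq_nr _ _ (litQ_close s.Q R hR)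
  have n2 : GNr (gaq (litQ s.Q R hR) D) (gaq s.Q D) (fun _ => cM M D 2) :=
    gaq_nr _ _ (fun k ω i => by rw [abs_sub_comm]; exact litQ_close s.Q R hR k ω i)
  refine costgK (A := cndR s R c) n1 n2 (litQ_R s.Q R hR) (gaq_hom _ D) E₀ hE0 hx B none rfl ?_ (E D) (by linarith)
    (fun _ => (E D : ℝ)) (fun _ => le_rfl) ε hε hs y hy hU
  intro z hz i
  rcases i with _ | i
  · exact hz none
  · exact win_leak (s.lf i) h0 h1.le (hL i) z (hz (some ⟨i, none⟩)) (fun j => hz (some ⟨i, some j⟩))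

/-- optimal forms among exact K-labels have the cost property -/
theorem costP_of_optK [Finite ι] (s : MSys S M E ι) (hED : 1 ≤ E D) {c : ℝ} (h0 : 0 ≤ c) (h1 : c < 1)
    (R : ∀ k, Setoid (S.F k).Ω) (hR : ∀ k, R k ≤ Setoid.ker (s.Q.cellv 1 k)) {x : ∀ k, FD (S.F k) (Mon M D)}
    (hx : (gaq s.Q D).OptfK (LC.kz (fun k => fc (R k))) (cndR s R c) x) : CostP s D c x :=
  fun E₀ hE0 hE1 y hy hU => cost_K s hED h0 h1 R hR E₀ hE0 hE1 hx y hy hU

/-- TYPE-LABELS (no condition at the point): the windows of the types are the only conditions -/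
theorem costP_of_typ [Finite ι] (s : MSys S M E ι) (hED : 1 ≤ E D) {c : ℝ} (h0 : 0 ≤ c) (h1 : c < 1)
    {x : ∀ k, FD (S.F k) (Mon M D)} (hx : (gaq s.Q D).Optf (fun i => (s.lf i).win c) x) : CostP s D c x := by
  classical
  intro E₀ hE0 hE1 y hy hU
  have hN : (1 : ℝ) ≤ E D := by exact_mod_cast hED
  have hL : ∀ i, Nul S (fun k => (x k).l.leak ((s.lf i).win c k)) := fun i => Gau.Adf.dm _ hx.1 i
  set κ' := Σ i : ι, Option (Fin (s.lf i).e) with hκ'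
  set B : κ' → Part (Ov x) := fun a => match a with
    | ⟨i, none⟩ => Lab.up (fun k => (x k).l) 1 one_pos (fun k => fc (tS (s.lf i) c k))
    | ⟨i, some j⟩ => Lab.up (fun k => (x k).l) 1 one_pos (fun k => fc (cS (s.lf i) c j k)) with hB
  have hstep : ∀ a : κ', ∃ ε : ℕ → ℝ, Tendsto ε UF (𝓝 0) ∧ ∀ᶠ k in UF, ∀ z : CL ((Ov x).F k) (Mon M D → ℝ),
      z.Good (GdC x k) → z.E (fex (gaq s.Q D) x E₀ k) - E D * (z.l.leak (B a k) / ((Ov x).F k).n) - ε k ≤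
        (z.rs (B a k)).E (fex (gaq s.Q D) x E₀ k) := by
    intro a
    have hlk : ∀ (k : ℕ) (z : CL ((Ov x).F k) (Mon M D → ℝ)), 0 ≤ E D * (z.l.leak (B a k) / ((Ov x).F k).n) :=
      fun k z => mul_nonneg (by linarith) (div_nonneg (FLab.leak_nonneg _ _) ((Ov x).F k).pos.le)
    rcases a with ⟨i, _ | j⟩
    · obtain ⟨ε, hε, h⟩ := step_leaf_t (D := D) (s.lf i) E₀ c x
      refine ⟨ε, hε, ?_⟩
      filter_upwards [h] with k hk z _
      have u1 := hk z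
      have u2 := hlk k z
      show z.E _ - _ - ε k ≤ (z.rs (Lab.up (fun k => (x k).l) 1 one_pos (fun k => fc (tS (s.lf i) c k)) k)).E _
      linarith
    · obtain ⟨ε, hε, h⟩ := step_leaf_c (D := D) (s.lf i) hED h0 h1 E₀ hE0 hE1 x (hL i) j
      refine ⟨ε, hε, ?_⟩
      filter_upwards [h] with k hk z _ using hk z
  choose ε hε hs using hstep
  refine costg0 (A := fun i => (s.lf i).win c) (gaq_hom s.Q D) E₀ hE0 hx B ?_ (E D) (by linarith)
    (fun _ => (E D : ℝ)) (fun _ => le_rfl) ε hε hs y hy hU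
  intro z hz i
  exact win_leak (s.lf i) h0 h1.le (hL i) z (hz ⟨i, none⟩) (fun j => hz ⟨i, some j⟩)

/-- the point itself as resolution -/
theorem cndR_pt (s : MSys S M E ι) (c : ℝ) : cndR s (fun k => Setoid.ker (s.Q.cellv 1 k)) c = s.cnd c := by
  funext i
  rcases i with _ | i <;> rfl

end

end Pool.Agent.Helper17.KL
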